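import Pool.Agent.Helper17.PP0.Defs
import Pool.Agent.Helper17.PP.GoalsC1

/-!
# Project PP, stage 3 (R) (MP_fc6b1e_nt): the abstract moment theorem with two-sided symbols

All the conditions are kept, also the one at the top prime of the support, by a bilinear bound for the
symbols in both directions. `G` is the set of the primes of degree one over the rational numbers.
-/

namespace Pool.Agent.Helper17.PP2

open Finset Pool.Agent.Helper17.PP Pool.Agent.Helper17.PP0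

variable {p : ℕ} {B B₀ k U Λ C : Type} [Field k] [AddCommGroup U] [Module k U]
    [AddCommGroup Λ] [Module k Λ] [AddCommGroup C] (S : Sys p B B₀ k U Λ C)

open Classical in
/-- The analytic hypotheses: those of `Hyp₀`, a bound for the primes which are not in `G`, and the bilinear
bound for the symbols in both directions. -/
structure Hyp₂ [Fintype k] [Algebra (ZMod p) k] (ψ : AddChar k ℂ) (G : B → Prop) (g : ℝ → ℝ)
    (K : ℕ) : Prop extends Hyp₀ S ψ g K where
  /-- The primes which are not in `G` are rare. -/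
  tail : ∀ ε : ℝ, 0 < ε → ∃ j₀ : ℕ, ∀ n : ℕ,
    ∑ q ∈ S.below n with (¬ G q ∧ j₀ ≤ S.bl q), (1 : ℝ) / S.N q ≤ ε
  /-- Bilinear bound for two split primes `q`, `q₁` with labels `(t, s)`, `(c, y)`. -/
  bl₃ : ∀ (i j : ℕ) (t s c y : k) (α β : B → ℂ) (Y : ℝ), 1 ≤ i → 1 ≤ j → i ≠ j → t ≠ 0 →
    s ≠ 0 → (c ≠ 0 ∨ y ≠ 0) → 0 < Y → (∀ q, ‖α q‖ ≤ 1) → (∀ q, ‖β q‖ ≤ 1) →
    ‖∑ q₁ ∈ S.blk i with (S.spl q₁ ∧ G q₁), ∑ q ∈ S.blk j with (S.spl q ∧ G q), α q₁ * β q *
      ψ (s * (c * S.a q q₁ + t * algebraMap (ZMod p) k (S.kap q q₁)) +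
        y * (t * S.a q₁ q + c * algebraMap (ZMod p) k (S.kap q₁ q))) *
      (Real.exp (-((S.N q : ℝ) * S.N q₁ / Y)) : ℂ)‖ ≤
      K * 2 ^ (i + j) * (i + j) ^ K * (2 : ℝ) ^ (-(min i j : ℝ) / K) *
        Real.exp (-((2 : ℝ) ^ (i + j) / (2 * Y)))

open Classical in
/-- **MT₂**, the abstract moment theorem with two-sided symbols. The bad `b` of the family have Abel mean at
most `(|U|/|Λ|)/(Q-1)`, where `Q = |k|`. -/
def MT₂ : Prop :=
  ∀ (p : ℕ) [Fact p.Prime] (B B₀ k U Λ C : Type) [Field k] [Fintype k] [Algebra (ZMod p) k]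
    [AddCommGroup U] [Module k U] [Fintype U] [AddCommGroup Λ] [Module k Λ] [Fintype Λ]
    [AddCommGroup C] [Finite C] (S : Sys p B B₀ k U Λ C) (ψ : AddChar k ℂ) (G : B → Prop)
    (g : ℝ → ℝ) (K : ℕ), Hyp₂ S ψ G g K →
  ∀ ε : ℝ, 0 < ε → ∃ X₀ : ℝ, ∀ X : ℝ, X₀ ≤ X → ∀ P : Finset B,
    ∑ b ∈ P.powerset with (S.Fam b ∧ S.Bad b), Real.exp (-(S.nm b / X)) ≤
      (Fintype.card U / Fintype.card Λ) * (1 / (Fintype.card k - 1)) *
        ∑ b ∈ P.powerset with S.Fam b, Real.exp (-(S.nm b / X)) + ε * (X * g X)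

/-- The two-sided phase of the label functions `c`, `y` and of the character `χ` of `Λ`. -/
noncomputable def ph [Algebra (ZMod p) k] (ψ : AddChar k ℂ) (χ : AddChar Λ ℂ) (b : Finset B)
    (x : U) (c y : B → k) : ℂ :=
  χ (S.lam₀ x + ∑ q ∈ b, S.lam q (c q)) * ∏ q ∈ b, ψ (y q * S.R b x c q)

open Classical in
/-- The label function which is `t` at `q` and `c` at the other split primes in the blocks below `j`. -/
noncomputable def cutc (j : ℕ) (q : B) (t : k) (c : B → k) : B → k :=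
  fun q' ↦ if q' = q then t else if S.spl q' ∧ S.bl q' < j then c q' else 0

open Classical in
/-- The label function which is `s` at `q` and `y` at the other split primes in the blocks `≤ Θ`, not in
the block `j`. -/
noncomputable def cuty (E j : ℕ) (q : B) (s : k) (y : B → k) : B → k :=
  fun q' ↦ if q' = q then s else
    if S.spl q' ∧ S.bl q' ≠ j ∧ S.bl q' ≤ th E j then y q' else 0

/-- The label of `q'` is not `(0, 0)`. -/
def Nz (E j : ℕ) (c y : B → k) (q' : B) : Prop :=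
  S.spl q' ∧ ((S.bl q' < j ∧ c q' ≠ 0) ∨ (S.bl q' ≠ j ∧ S.bl q' ≤ th E j ∧ y q' ≠ 0))

/-- All the primes of `b` in the blocks `≥ T`, except `q`, have the label `(0, 0)`. -/
def Zr (T E : ℕ) (b : Finset B) (q : B) (c y : B → k) : Prop :=
  ∀ q' ∈ b, q' ≠ q → T ≤ S.bl q' → ¬ Nz S E (S.bl q) c y q'

/-- `q₁` is the top prime of `b`, except `q`, with a label `≠ (0, 0)`, and it is in a block `≥ T`. -/
structure Tp (T E : ℕ) (b : Finset B) (q : B) (c y : B → k) (q₁ : B) : Prop where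
  mem : q₁ ∈ b
  ne : q₁ ≠ q
  le : T ≤ S.bl q₁
  nz : Nz S E (S.bl q) c y q₁
  top : ∀ q' ∈ b, q' ≠ q → q' ≠ q₁ → T ≤ S.bl q' → Nz S E (S.bl q) c y q' →
    S.bl q' < S.bl q₁

/-- The primes of `b` in the blocks `≥ T` are in `G` and in distinct blocks. -/
def Ok (G : B → Prop) (T : ℕ) (b : Finset B) : Prop :=
  (∀ q ∈ b, ∀ q' ∈ b, q ≠ q' → S.bl q = S.bl q' → S.bl q < T) ∧ ∀ q ∈ b, T ≤ S.bl q → G q

open Classical in
/-- The part of the expansion of the condition at `q` where the label functions satisfy `F` and the label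
of `q` is `(t, s)`, `t ≠ 0`. -/
noncomputable def ful [Algebra (ZMod p) k] [Fintype k] [Fintype U] [Fintype Λ] (ψ : AddChar k ℂ)
    (E : ℕ) (P b : Finset B) (q : B) (s : k) (F : (B → k) → (B → k) → Prop) : ℂ :=
  ((Fintype.card k : ℂ) ^ (S.rs b q).card / (Fintype.card Λ * ((lab k P).card : ℂ) ^ 2)) *
    ∑ x : U, ∑ t : k with t ≠ 0, ∑ χ : AddChar Λ ℂ, ∑ c ∈ lab k P, ∑ y ∈ lab k P with F c y,
      ph S ψ χ b x (cutc S (S.bl q) q t c) (cuty S E (S.bl q) q s y)

end Pool.Agent.Helper17.PP2
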