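import Pool.Agent.Helper17.PP2.FinA

/-!
# Project PP, stage 3 (R): the steps of the assembly of `MT₂`
-/

namespace Pool.Agent.Helper17.PP2

open Finset Pool.Agent.Helper17.PP Pool.Agent.Helper17.PP0

/-- `ti A L + j₀ ≤ √L` for large `L`. -/
theorem ti_le_sqrt (A j₀ : ℕ) : ∃ L₀ : ℕ, ∀ L, L₀ ≤ L → ti A L + j₀ ≤ Nat.sqrt L := by
  have h : Filter.Tendsto (fun n : ℕ ↦ (n : ℝ) ^ 2 / (2 : ℝ) ^ n) Filter.atTop (nhds 0) :=
    tendsto_pow_const_div_const_pow_of_one_lt 2 (by norm_num)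
  have h2 : ∀ᶠ n : ℕ in Filter.atTop, (n : ℝ) ^ 2 / (2 : ℝ) ^ n < 1 / ((A : ℝ) + 1) ^ 2 :=
    h.eventually (gt_mem_nhds (by positivity))
  obtain ⟨n₀, hn₀⟩ := Filter.eventually_atTop.1 h2
  refine ⟨2 ^ (n₀ + j₀), fun L hL ↦ ?_⟩
  rw [Nat.le_sqrt]
  unfold ti
  set n := Nat.log 2 L with hn
  have hLpos : L ≠ 0 := by
    have : 0 < 2 ^ (n₀ + j₀) := by positivity
    omega
  have hn1 : n₀ + j₀ ≤ n := by
    rw [hn]
    exact Nat.le_log_of_pow_le (by norm_num) hL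
  have h3 := hn₀ n (by omega)
  rw [div_lt_div_iff₀ (by positivity) (by positivity)] at h3
  have h4 : n ^ 2 * (A + 1) ^ 2 < 2 ^ n := by
    have : (n : ℝ) ^ 2 * ((A : ℝ) + 1) ^ 2 < 2 ^ n := by linarith
    exact_mod_cast this
  have h5 : 2 ^ n ≤ L := Nat.pow_log_le_self 2 hLpos
  have h6 : A * n + j₀ ≤ n * (A + 1) := by nlinarith
  calc (A * n + j₀) * (A * n + j₀) ≤ (n * (A + 1)) * (n * (A + 1)) := Nat.mul_le_mul h6 h6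
    _ = n ^ 2 * (A + 1) ^ 2 := by ring
    _ ≤ L := by omega

section steps

variable {p : ℕ} [Fact p.Prime] {B B₀ k U Λ C : Type} [Field k] [Fintype k]
    [Algebra (ZMod p) k] [AddCommGroup U] [Module k U] [Fintype U] [AddCommGroup Λ] [Module k Λ]
    [AddCommGroup C] (S : Sys p B B₀ k U Λ C)

open Classical in
theorem step1 (hCNT : C_CNT) (G : B → Prop) (E j₀ s : ℕ) (X : ℝ) (P : Finset B) :
    ∑ b ∈ P.powerset with (S.Fam b ∧ S.Bad b), Real.exp (-(S.nm b / X)) ≤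
      ∑ b ∈ P.powerset with (∃ q ∈ b, th E s < S.bl q), Real.exp (-(S.nm b / X)) +
      ∑ b ∈ P.powerset with (S.Fam b ∧ ∃ (x : U) (c : B → k), S.IsSol b x c ∧
        ¬ (x = 0 ∧ c = 0) ∧ ∀ q, c q ≠ 0 → S.bl q < j₀), Real.exp (-(S.nm b / X)) +
      ∑ b ∈ P.powerset with (∃ q ∈ b, ∃ q' ∈ b, q ≠ q' ∧ S.bl q = S.bl q' ∧ j₀ ≤ S.bl q),
        Real.exp (-(S.nm b / X)) +
      ∑ b ∈ P.powerset with (∃ q ∈ b, j₀ ≤ S.bl q ∧ ∃ D ⊆ b, q ∉ D ∧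
        (∀ q' ∈ D, S.bl q' ≤ th E (S.bl q)) ∧ 2 ^ tb E (S.bl q) ≤ S.nm D),
        Real.exp (-(S.nm b / X)) +
      ∑ b ∈ P.powerset with (∃ q ∈ b, ¬ G q ∧ j₀ ≤ S.bl q), Real.exp (-(S.nm b / X)) +
      ∑ b ∈ (P.filter fun q ↦ S.bl q ≤ th E s).powerset with (S.Fam b ∧ Ok S G j₀ b ∧
        ∃ q, S.Wt E b q ∧ j₀ ≤ S.bl q ∧ Fintype.card k - 1 ≤ S.cnt₂ E b q),
        Real.exp (-(S.nm b / X)) := by
  have hlast : ∑ b ∈ (P.filter fun q ↦ S.bl q ≤ th E s).powerset with (S.Fam b ∧ Ok S G j₀ b ∧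
        ∃ q, S.Wt E b q ∧ j₀ ≤ S.bl q ∧ Fintype.card k - 1 ≤ S.cnt₂ E b q),
        Real.exp (-(S.nm b / X)) =
      ∑ b ∈ P.powerset with ((∀ q ∈ b, S.bl q ≤ th E s) ∧ (S.Fam b ∧ Ok S G j₀ b ∧
        ∃ q, S.Wt E b q ∧ j₀ ≤ S.bl q ∧ Fintype.card k - 1 ≤ S.cnt₂ E b q)),
        Real.exp (-(S.nm b / X)) := by
    refine Finset.sum_congr ?_ fun _ _ ↦ rfl
    ext b
    simp only [mem_filter, mem_powerset]
    constructor
    · rintro ⟨h1, h2⟩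
      exact ⟨fun q hq ↦ (mem_filter.1 (h1 hq)).1, fun q hq ↦ (mem_filter.1 (h1 hq)).2, h2⟩
    · rintro ⟨h1, h2, h3⟩
      exact ⟨fun q hq ↦ mem_filter.2 ⟨h1 hq, h2 q hq⟩, h3⟩
  rw [hlast]
  simp only [Finset.sum_filter, ← Finset.sum_add_distrib]
  refine Finset.sum_le_sum fun b hb ↦ ?_
  have he : 0 ≤ Real.exp (-(S.nm b / X)) := (Real.exp_pos _).le
  by_cases hA : S.Fam b ∧ S.Bad b
  swap
  · rw [if_neg hA]
    positivity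
  rw [if_pos hA]
  have key : ∀ t1 t2 t3 t4 t5 t6 : ℝ, 0 ≤ t1 → 0 ≤ t2 → 0 ≤ t3 → 0 ≤ t4 → 0 ≤ t5 → 0 ≤ t6 →
      (t1 = Real.exp (-(S.nm b / X)) ∨ t2 = Real.exp (-(S.nm b / X)) ∨
        t3 = Real.exp (-(S.nm b / X)) ∨ t4 = Real.exp (-(S.nm b / X)) ∨
        t5 = Real.exp (-(S.nm b / X)) ∨ t6 = Real.exp (-(S.nm b / X))) →
      Real.exp (-(S.nm b / X)) ≤ t1 + t2 + t3 + t4 + t5 + t6 := by
    intro t1 t2 t3 t4 t5 t6 h1 h2 h3 h4 h5 h6 h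
    rcases h with h | h | h | h | h | h <;> linarith
  refine key _ _ _ _ _ _ (by positivity) (by positivity) (by positivity) (by positivity)
    (by positivity) (by positivity) ?_
  by_cases h6 : ∃ q ∈ b, th E s < S.bl q
  · exact Or.inl (if_pos h6)
  by_cases h0 : S.Fam b ∧ ∃ (x : U) (c : B → k), S.IsSol b x c ∧
        ¬ (x = 0 ∧ c = 0) ∧ ∀ q, c q ≠ 0 → S.bl q < j₀
  · exact Or.inr (Or.inl (if_pos h0))
  by_cases h2 : ∃ q ∈ b, ∃ q' ∈ b, q ≠ q' ∧ S.bl q = S.bl q' ∧ j₀ ≤ S.bl q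
  · exact Or.inr (Or.inr (Or.inl (if_pos h2)))
  by_cases h5 : ∃ q ∈ b, j₀ ≤ S.bl q ∧ ∃ D ⊆ b, q ∉ D ∧
        (∀ q' ∈ D, S.bl q' ≤ th E (S.bl q)) ∧ 2 ^ tb E (S.bl q) ≤ S.nm D
  · exact Or.inr (Or.inr (Or.inr (Or.inl (if_pos h5))))
  by_cases h7 : ∃ q ∈ b, ¬ G q ∧ j₀ ≤ S.bl q
  · exact Or.inr (Or.inr (Or.inr (Or.inr (Or.inl (if_pos h7)))))
  have h8 : (∀ q ∈ b, S.bl q ≤ th E s) ∧ (S.Fam b ∧ Ok S G j₀ b ∧
        ∃ q, S.Wt E b q ∧ j₀ ≤ S.bl q ∧ Fintype.card k - 1 ≤ S.cnt₂ E b q) := by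
    refine ⟨fun q hq ↦ not_lt.1 fun h ↦ h6 ⟨q, hq, h⟩, hA.1, ⟨fun q hq q' hq' hne he ↦ ?_,
      fun q hq hT ↦ ?_⟩, ?_⟩
    · by_contra hh
      exact h2 ⟨q, hq, q', hq', hne, he, by omega⟩
    · by_contra hh
      exact h7 ⟨q, hq, hh, hT⟩
    · refine hCNT p B B₀ k U Λ C S E j₀ b hA.2 (fun x c hx hne ↦ ?_) fun q hq hqs hqb ↦ ?_
      · by_contra hh
        push Not at hh
        exact h0 ⟨hA.1, x, c, hx, hne, fun q hq ↦ hh q hq⟩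
      · refine ⟨hq, hqs, fun q' hq' hne _ he ↦ h2 ⟨q, hq, q', hq', Ne.symm hne, he.symm, hqb⟩,
          fun D hD hqD hDb ↦ ?_⟩
        by_contra hh
        exact h5 ⟨q, hq, hqb, D, hD, hqD, hDb, not_lt.1 hh⟩
  exact Or.inr (Or.inr (Or.inr (Or.inr (Or.inr (if_pos h8)))))

open Classical in
theorem step2 (E j₀ s : ℕ) (b : Finset B)
    (hq : ∃ q, S.Wt E b q ∧ j₀ ≤ S.bl q ∧ Fintype.card k - 1 ≤ S.cnt₂ E b q) :
    (Fintype.card k : ℝ) - 1 ≤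
      ∑ q ∈ b with ((S.Wt E b q ∧ S.bl q < s) ∧ j₀ ≤ S.bl q), (S.cnt E b q : ℝ) +
      ∑ q ∈ b with (S.Wt E b q ∧ s ≤ S.bl q), (S.cnt₂ E b q : ℝ) := by
  obtain ⟨q, hq, hqj, hqc⟩ := hq
  have hc : (Fintype.card k : ℝ) - 1 ≤ S.cnt₂ E b q := by
    have : Fintype.card k ≤ S.cnt₂ E b q + 1 := by omega
    have h2 : (Fintype.card k : ℝ) ≤ (S.cnt₂ E b q : ℝ) + 1 := by exact_mod_cast this
    linarith
  by_cases hs : S.bl q < s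
  · have h1 : (S.cnt E b q : ℝ) ≤
        ∑ q ∈ b with ((S.Wt E b q ∧ S.bl q < s) ∧ j₀ ≤ S.bl q), (S.cnt E b q : ℝ) :=
      Finset.single_le_sum (f := fun q ↦ (S.cnt E b q : ℝ)) (fun _ _ ↦ by positivity)
        (mem_filter.2 ⟨hq.mem, ⟨hq, hs⟩, hqj⟩)
    have h2 : (S.cnt₂ E b q : ℝ) ≤ S.cnt E b q := by exact_mod_cast S.cnt₂_le E b q
    have h3 : 0 ≤ ∑ q ∈ b with (S.Wt E b q ∧ s ≤ S.bl q), (S.cnt₂ E b q : ℝ) := by positivity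
    linarith
  · have h0 : 0 ≤ ∑ q ∈ b with ((S.Wt E b q ∧ S.bl q < s) ∧ j₀ ≤ S.bl q),
        (S.cnt E b q : ℝ) := by positivity
    have h1 : (S.cnt₂ E b q : ℝ) ≤
        ∑ q ∈ b with (S.Wt E b q ∧ s ≤ S.bl q), (S.cnt₂ E b q : ℝ) :=
      Finset.single_le_sum (f := fun q ↦ (S.cnt₂ E b q : ℝ)) (fun _ _ ↦ by positivity)
        (mem_filter.2 ⟨hq.mem, hq, by omega⟩)
    linarith

open Classical in
theorem step4 (G : B → Prop) (E j₀ s T : ℕ) (P : Finset B) (X : ℝ)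
    (hP : ∀ q ∈ P, S.bl q ≤ th E s) (hT : j₀ ≤ T) :
    ((Fintype.card k : ℝ) - 1) * ∑ b ∈ P.powerset with (S.Fam b ∧ Ok S G j₀ b ∧
        ∃ q, S.Wt E b q ∧ j₀ ≤ S.bl q ∧ Fintype.card k - 1 ≤ S.cnt₂ E b q),
        Real.exp (-(S.nm b / X)) ≤ ∑ j ∈ Ico j₀ s, T1 S E P X j +
          ∑ j ∈ Ico s (th E s + 1), T2 S G T E P X j := by
  have hA : ((Fintype.card k : ℝ) - 1) * ∑ b ∈ P.powerset with (S.Fam b ∧ Ok S G j₀ b ∧
        ∃ q, S.Wt E b q ∧ j₀ ≤ S.bl q ∧ Fintype.card k - 1 ≤ S.cnt₂ E b q),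
        Real.exp (-(S.nm b / X)) ≤
      ∑ b ∈ P.powerset with S.Fam b,
        (∑ q ∈ b with ((S.Wt E b q ∧ S.bl q < s) ∧ j₀ ≤ S.bl q), (S.cnt E b q : ℝ)) *
          Real.exp (-(S.nm b / X)) +
      ∑ b ∈ P.powerset with (S.Fam b ∧ Ok S G T b),
        (∑ q ∈ b with (S.Wt E b q ∧ s ≤ S.bl q), (S.cnt₂ E b q : ℝ)) *
          Real.exp (-(S.nm b / X)) := by
    rw [Finset.mul_sum]
    have h1 : ∑ b ∈ P.powerset with (S.Fam b ∧ Ok S G j₀ b ∧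
        ∃ q, S.Wt E b q ∧ j₀ ≤ S.bl q ∧ Fintype.card k - 1 ≤ S.cnt₂ E b q),
        ((Fintype.card k : ℝ) - 1) * Real.exp (-(S.nm b / X)) ≤
      ∑ b ∈ P.powerset with (S.Fam b ∧ Ok S G j₀ b ∧
        ∃ q, S.Wt E b q ∧ j₀ ≤ S.bl q ∧ Fintype.card k - 1 ≤ S.cnt₂ E b q),
        (∑ q ∈ b with ((S.Wt E b q ∧ S.bl q < s) ∧ j₀ ≤ S.bl q), (S.cnt E b q : ℝ)) *
          Real.exp (-(S.nm b / X)) +
      ∑ b ∈ P.powerset with (S.Fam b ∧ Ok S G j₀ b ∧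
        ∃ q, S.Wt E b q ∧ j₀ ≤ S.bl q ∧ Fintype.card k - 1 ≤ S.cnt₂ E b q),
        (∑ q ∈ b with (S.Wt E b q ∧ s ≤ S.bl q), (S.cnt₂ E b q : ℝ)) *
          Real.exp (-(S.nm b / X)) := by
      rw [← Finset.sum_add_distrib]
      refine Finset.sum_le_sum fun b hb ↦ ?_
      rw [mem_filter] at hb
      rw [← add_mul]
      exact mul_le_mul_of_nonneg_right (step2 (Λ := Λ) S E j₀ s b hb.2.2.2) (Real.exp_pos _).le
    refine h1.trans (add_le_add ?_ ?_)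
    · refine Finset.sum_le_sum_of_subset_of_nonneg ?_ fun b _ _ ↦ by positivity
      intro b hb
      rw [mem_filter] at hb ⊢
      exact ⟨hb.1, hb.2.1⟩
    · refine Finset.sum_le_sum_of_subset_of_nonneg ?_ fun b _ _ ↦ by positivity
      intro b hb
      rw [mem_filter] at hb ⊢
      exact ⟨hb.1, hb.2.1, hb.2.2.1.mono (S := S) hT⟩
  refine hA.trans (add_le_add (le_of_eq ?_) (le_of_eq ?_))
  · unfold T1
    rw [Finset.sum_comm]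
    refine Finset.sum_congr rfl fun b hb ↦ ?_
    rw [Finset.sum_mul]
    have h2 := S.sum_blocks (b.filter fun q ↦ S.bl q < s) (fun q ↦ S.Wt E b q) j₀ s
      (fun q ↦ (S.cnt E b q : ℝ) * Real.exp (-(S.nm b / X)))
      (fun q hq ↦ (mem_filter.1 hq).2)
    rw [Finset.filter_filter] at h2
    have h3 : b.filter (fun q ↦ (S.Wt E b q ∧ S.bl q < s) ∧ j₀ ≤ S.bl q) =
        b.filter (fun q ↦ S.bl q < s ∧ S.Wt E b q ∧ j₀ ≤ S.bl q) := by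
      refine Finset.filter_congr fun q _ ↦ ?_
      tauto
    rw [h3, h2]
    refine Finset.sum_congr rfl fun j hj ↦ ?_
    rw [mem_Ico] at hj
    rw [Finset.filter_filter]
    refine Finset.sum_congr ?_ fun _ _ ↦ rfl
    refine Finset.filter_congr fun q _ ↦ ?_
    constructor
    · rintro ⟨-, h⟩
      exact h
    · intro h
      exact ⟨by omega, h⟩
  · unfold T2
    rw [Finset.sum_comm]
    refine Finset.sum_congr rfl fun b hb ↦ ?_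
    rw [mem_filter, mem_powerset] at hb
    have hbl : ∀ q ∈ b, S.bl q < th E s + 1 := fun q hq ↦ Nat.lt_succ_of_le (hP q (hb.1 hq))
    rw [Finset.sum_mul]
    exact S.sum_blocks b (fun q ↦ S.Wt E b q) s (th E s + 1)
      (fun q ↦ (S.cnt₂ E b q : ℝ) * Real.exp (-(S.nm b / X))) hbl

end steps

end Pool.Agent.Helper17.PP2
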