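import Pool.Agent.Helper17.PP2.Defs
import Pool.Agent.Helper17.PP.GoalsC3

/-!
# Project PP, stage 3 (R) (MP_fc6b1e_nt): goals for `MT₂`

Every statement is a `def ... : Prop` with its complete proof in the docstring. `Q = |k|`, `e(z)` is
`exp(-z)`. In the statements with `∃ K'` the constant `K'` depends on everything except
`E, T, i, j, s, X, P`.
-/

namespace Pool.Agent.Helper17.PP2

open Finset Pool.Agent.Helper17.PP Pool.Agent.Helper17.PP0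

open Classical in
/-- **R_FUL** (expansion of the condition at `q`). Let `q ∈ b ⊆ P`, `bl q ≤ th E (bl q)`. Then
`cnt₂ E b q = (1/Q) cnt E b q + (1/Q) ∑_{s ≠ 0} Re (ful E P b q s)`, with no condition `F` on the label
functions.

PROOF (from `C_LAB`; compare `C_OSC`, proved in `Pool/Agent/Helper74/PP/COSC.lean`, whose lemmas `sum_ind`,
`sum_trc`, `isPre_trc_iff` can be imported and used). By orthogonality (`ψ ≠ 1`, `k` a field)
`1[R = 0] = (1/Q) ∑_{s ∈ k} ψ(s R)`, so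
`cnt₂ E b q = (1/Q) ∑_{s ∈ k} V_s`, `V_s = ∑_{(x, c), IsPre E b q x c} ψ(s R b x c q)` over
`x ∈ U`, `c ∈ lab k b`. `V_0 = cnt E b q`. CLAIM: `V_s = ful E P b q s` for every `s`; then take real parts. By
`sum_trc` `V_s = ∑_x ∑_{t ≠ 0} Q^|rs| |lab k P|⁻¹ ∑_{c ∈ lab k P} 1[IsPre E b q x c'] ψ(s R b x c' q)`,
`c' = trc b q t c` (a pair `(x, c)` with `IsPre` satisfies `c q ≠ 0` and has support in `rs b q ∪ {q}`). For
`t ≠ 0`, `IsPre E b q x c'` holds iff `lam₀ x + ∑_{q' ∈ b} lam q' (c' q') = 0` and `R b x c' q' = 0` for all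
`q' ∈ rg E b q`; the indicators of these conditions are `|Λ|⁻¹ ∑_χ χ(..)` (`AddChar.sum_apply_eq_ite`) and
`|lab k P|⁻¹ ∑_{y ∈ lab k P} ∏_{q' ∈ rg E b q} ψ(y q' R b x c' q')` (`sum_ind` with `D = rg E b q`). On `b` the
function `c'` is equal to `cutc (bl q) q t c`, and `R b x c q'`, `q' ∈ b`, depends only on the values of `c` on
`b`; `cuty E (bl q) q s y` is `s` at `q`, `y` on `rg E b q` and `0` at the other primes of `b`, so
`∏_{q' ∈ b} ψ(cuty q' · R) = ψ(s R b x c' q) ∏_{q' ∈ rg E b q} ψ(y q' R b x c' q')`. -/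
def R_FUL : Prop :=
  ∀ (p : ℕ) [Fact p.Prime] (B B₀ k U Λ C : Type) [Field k] [Fintype k] [Algebra (ZMod p) k]
    [AddCommGroup U] [Module k U] [Fintype U] [AddCommGroup Λ] [Module k Λ] [Fintype Λ]
    [AddCommGroup C] (S : Sys p B B₀ k U Λ C) (ψ : AddChar k ℂ), ψ ≠ 1 →
  ∀ (E : ℕ) (P b : Finset B) (q : B), b ⊆ P → q ∈ b → S.bl q ≤ th E (S.bl q) →
    (S.cnt₂ E b q : ℝ) = (1 / Fintype.card k : ℝ) * S.cnt E b q + (1 / Fintype.card k : ℝ) *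
      ∑ s : k with s ≠ 0, (ful S ψ E P b q s fun _ _ ↦ True).re

open Classical in
/-- **R_OSZ** (all the labels in the blocks `≥ T` are zero). Let `1 ≤ T ≤ j`, and let all the primes of `P` be in
blocks `≤ th E j`. The sum over `b ⊆ P` and over `q` in the block `j` with `Wt` of
`‖ful E P b q s Zr‖ e(nm b/X)` is at most
`K' (T+2)^K' j⁻¹ min(1, X/2^j) (max 1 n)^(-1/(2K)) X g(X)`, `n = lg X - (j+1)` (subtraction in `ℕ`).

PROOF (from `C_LAB`, `C_DEC`, and `mers`, `ht`, `che`, `g_mono` of `Hyp₀`; compare `Z_SML`, `Z_MNS`, proved in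
`Pool/Agent/Helper17/PP0/SML.lean`, `MNS.lean`). `|ph| = 1` (`AddChar.norm_apply`). So
`‖ful‖ ≤ |U| Q Q^|rs b q| |lab k P|⁻² #{(c, y) : Zr T E b q c y}` (`|Λ|` characters `χ`, `AddChar.card_eq`, at
most `Q` values of `t`). `Zr T E b q c y` says: `c = 0` on the set `A` of the split primes of `b` in the
blocks `T ≤ · < j`, `y = 0` on the set `A'` of the split primes of `b` in the blocks `≥ T`, `≠ j` (all of them
are `≤ th E j`); note `q ∉ A, A'` and a split prime `q' ≠ q` of `b` is not in the block `j` by `Wt.uniq`. By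
`C_LAB` (4), `#{(c, y)} = |lab k P|² Q^(-|A|) Q^(-|A'|)`. Let `f q' = Q` if `q'` is split in a block `< T`,
`f q' = 1/Q` if `q'` is split in a block `≥ T`, `≠ j`, and `f q' = 1` otherwise. Then
`‖ful‖ ≤ |U| Q ∏_{q' ∈ b.erase q} f q'`: a split prime `q' ∈ b`, `q' ≠ q` in a block `< T` contributes `Q`
(from `Q^|rs|`), in a block `T ≤ · < j` it contributes `Q Q⁻¹ Q⁻¹`, in a block `> j` it contributes `Q⁻¹`.
By `C_DEC` (1) (`b = {q} ∪ r`) the sum is at most `|U| Q ∑_{q ∈ blk j} ∑_{r ⊆ P} (∏_{q' ∈ r} f q') e(nm r/Y)`,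
`Y = X/N q`. By `ht` (`0 ≤ f ≤ Q + 4`) the inner sum is at most
`K Y min(1, Y) g(Y) exp(∑_{q' ∈ upto Y} (f q' - 1)/N q')`, `min(1, Y) ≤ min(1, X/2^j)`, `g(Y) ≤ K g(X)`.
The exponent is `(Q-1) Σ₁ - (1 - 1/Q) Σ₂`; `Σ₁` is a sum over primes in the blocks `1, ..., T-1` (`N ≥ 2`, so the
block 0 is empty), by `che` at most `K (1 + log T)`, so `exp((Q-1) Σ₁) ≤ (e (T+1))^(Q K)`. `Σ₂` is the sum of
`1/N q'` over the split `q' ∈ upto Y` in blocks `≥ T`, `≠ j`. If `n ≤ T` use `Σ₂ ≥ 0`: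
`exp(-(1-1/Q) Σ₂) ≤ 1 ≤ T (max 1 n)^(-1/(2K))` as `(max 1 n)^(1/(2K)) ≤ T`. If `n > T`: all the primes of
`below n` are in `upto Y` (`N q' < 2^n ≤ 2^(lg X)/2^(j+1) ≤ X/2^(j+1) < Y`), so by `mers` (with `m = T`) and
`che` for the block `j`, `Σ₂ ≥ K⁻¹ log(n/T) - K - K`, and since `1 - 1/Q ≥ 1/2`,
`exp(-(1-1/Q) Σ₂) ≤ exp(-Σ₂/2)` (if `Σ₂ ≥ 0`) `≤ e^K (T/n)^(1/(2K)) ≤ e^K T (max 1 n)^(-1/(2K))`. Finally
`∑_{q ∈ blk j} X/N q ≤ X K/j`. -/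
def R_OSZ : Prop :=
  ∀ (p : ℕ) [Fact p.Prime] (B B₀ k U Λ C : Type) [Field k] [Fintype k] [Algebra (ZMod p) k]
    [AddCommGroup U] [Module k U] [Fintype U] [AddCommGroup Λ] [Module k Λ] [Fintype Λ]
    [AddCommGroup C] [Finite C] (S : Sys p B B₀ k U Λ C) (ψ : AddChar k ℂ)
    (g : ℝ → ℝ) (K : ℕ), Hyp₀ S ψ g K →
  ∃ K' : ℕ, ∀ (E T j : ℕ) (s : k) (X : ℝ) (P : Finset B), 1 ≤ T → T ≤ j →
      (∀ q ∈ P, S.bl q ≤ th E j) → 1 ≤ X →
    ∑ b ∈ P.powerset, ∑ q ∈ b with (S.Wt E b q ∧ S.bl q = j),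
        ‖ful S ψ E P b q s (Zr S T E b q)‖ * Real.exp (-(S.nm b / X)) ≤
      K' * ((T : ℝ) + 2) ^ K' / j * min 1 (X / 2 ^ j) *
        ((max 1 (lg X - (j + 1)) : ℕ) : ℝ) ^ (-(1 / (2 * K) : ℝ)) * (X * g X)

open Classical in
/-- **R_OSA** (the oscillating sums). Let `1 ≤ T ≤ i, j`, `i ≠ j`, `s ≠ 0`. The sum over the `b ⊆ P` in the
family with `Ok G T b`, over `q` in the block `j` with `Wt` and over `q₁` in the block `i`, of
`ful E P b q s (Tp .. q₁) · e(nm b/X)`, is at most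
`K' (lg X + 2)^K' (i+j)^K 2^(-min(i,j)/K) min(1, X/2^(i+j)) X g(X)`.

PROOF (from `C_DEC`, and `bl₃`, `ht`, `che`, `g_mono` of `Hyp₂`). The proof is similar to that of `C_OSB` in
`Pool/Agent/Helper30/PP/COSB.lean` (general lemmas and the summation at the end can be reused). Write
`b = {q, q₁} ∪ r` (disjoint) by `C_DEC` (1) twice. Insert the definition of `ful`, bring the sums over
`x, t, χ, c, y` outside, and fix these and `r`. Let `c⁰ q' = c q'` if `q'` is split in a block `< j`, otherwise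
`0`; `y⁰ q' = y q'` if `q'` is split in a block `≠ j`, `≤ th E j`, otherwise `0`.
*Conditions.* They are equivalent to: (1) `q`, `q₁` split, `bl q = j`, `bl q₁ = i`, `q`, `q₁` in `G` (`Ok`, `T ≤ i, j`);
(2) `Ok G T r` and no prime of `r` is in the block `i` or `j`; (3) every subset of `{q₁} ∪ r` consisting of
primes in blocks `≤ th E j` has norm `< 2^(tb E j)` (`Wt.small`; `Wt.uniq` follows from (2), `i ≠ j`); (4) `bs` is
injective on `r` (then on `b`, because primes with the same base are in the same block); (5)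
`cls q + cls q₁ + ∑_r cls = cl₀`; (6) `Nz E j c y q₁`; for `q' ∈ r` with `T ≤ bl q'` and `Nz E j c y q'`,
`bl q' < i`. Only (5) involves both `q` and `q₁`; for `q₁` in the block `i ≠ j`, split, `Nz E j c y q₁` says
`(c⁰ q₁, y⁰ q₁) ≠ (0, 0)`.
*Phases.* GENERAL LEMMA: if `q ∉ b'` then `ph χ (insert q b') x c y = ph χ b' x c y · χ(lam q (c q)) ·
ψ(y q · R b' x c q) · ∏_{q' ∈ b'} ψ(y q' (c q a(q', q) + c q' κ(q', q)))`, because
`R (insert q b') x c q' = R b' x c q' + c q a(q', q) + c q' κ(q', q)` for `q' ∈ b'` and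
`R (insert q b') x c q = R b' x c q`. The label functions `cutc j q t c`, `cuty E j q s y` are `t, s` at `q` and
equal to `c⁰`, `y⁰` at all other primes. Apply the lemma twice (`b = insert q₁ (insert q r)`):
`ph χ b x (cutc ..) (cuty ..) = ph χ r x c⁰ y⁰ · A(q) · A₁(q₁) · Φ(q, q₁)`, where
`A(q) = χ(lam q t) ψ(s (res q x + ∑_{q' ∈ r} c⁰ q' a(q, q') + t (dg q + ∑_{q' ∈ r} κ(q, q'))))
∏_{q' ∈ r} ψ(y⁰ q' (t a(q', q) + c⁰ q' κ(q', q)))` does not depend on `q₁`, `A₁(q₁)` is the same with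
`(q₁, c⁰ q₁, y⁰ q₁)` in place of `(q, t, s)` and does not depend on `q`, both have norm 1, and
`Φ = ψ(s (c⁰ q₁ a(q, q₁) + t κ(q, q₁)) + y⁰ q₁ (t a(q₁, q) + c⁰ q₁ κ(q₁, q)))`.
*The bilinear form.* `Q^|rs b q| = Q^|rs_j(r)| · (Q` if `i < j`, else `1)`, `rs_j(r)` the split primes of `r` in the
blocks `< j`. `nm b = N q N q₁ nm r`. Sum over `γ ∈ C` (`cls q = γ`, `cls q₁ = cl₀ - γ - ∑_r cls`) and over the value
`(c₁, y₁) ≠ (0, 0)` of `(c⁰ q₁, y⁰ q₁)` (at most `Q²`): for fixed `γ, c₁, y₁` we get at most `Q^|rs_j(r)| Q` times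
a bilinear form as in `bl₃` with `Y = X/nm r`, `α q₁ = 1[conditions on q₁] A₁(q₁)`,
`β q = 1[q ∈ P \ r, cls q = γ] A(q)`; its norm is at most
`K 2^(i+j) (i+j)^K 2^(-min(i,j)/K) e(2^(i+j) nm r/(2X))`.
*Summation.* The number of `(x, t, χ, c, y, γ, c₁, y₁)` divided by `|Λ| |lab k P|²` is at most `|U| Q |C| Q²`. By
`ht` with `f = Q`, `∑_{r ⊆ P} Q^|r| e(nm r/Y') ≤ K Y' min(1,Y') g(Y') exp(∑_{upto Y'} (Q-1)/N q')`,
`Y' = 2X/2^(i+j) ≤ X` (`i + j ≥ 2`); `upto Y' ⊆ upto X` is contained in the union of the blocks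
`1, ..., lg X`, so by `che` the exponent is `≤ (Q-1) K (1 + log(lg X + 1))`. `2^(i+j) Y' = 2X` and
`min(1,Y') ≤ 2 min(1, X/2^(i+j))`. -/
def R_OSA : Prop :=
  ∀ (p : ℕ) [Fact p.Prime] (B B₀ k U Λ C : Type) [Field k] [Fintype k] [Algebra (ZMod p) k]
    [AddCommGroup U] [Module k U] [Fintype U] [AddCommGroup Λ] [Module k Λ] [Fintype Λ]
    [AddCommGroup C] [Finite C] (S : Sys p B B₀ k U Λ C) (ψ : AddChar k ℂ) (G : B → Prop)
    (g : ℝ → ℝ) (K : ℕ), Hyp₂ S ψ G g K →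
  ∃ K' : ℕ, ∀ (E T i j : ℕ) (s : k) (X : ℝ) (P : Finset B), 1 ≤ T → T ≤ i → T ≤ j → i ≠ j →
      s ≠ 0 → 1 ≤ X →
    ‖∑ b ∈ P.powerset with (S.Fam b ∧ Ok S G T b), ∑ q ∈ b with (S.Wt E b q ∧ S.bl q = j),
      ∑ q₁ ∈ b with S.bl q₁ = i, ful S ψ E P b q s (fun c y ↦ Tp S T E b q c y q₁) *
        (Real.exp (-(S.nm b / X)) : ℂ)‖ ≤
      K' * (lg X + 2) ^ K' * (i + j) ^ K * (2 : ℝ) ^ (-(min i j : ℝ) / K) *
        min 1 (X / 2 ^ (i + j)) * (X * g X)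

open Classical in
/-- **R_EX7** (primes which are not in `G`). For `j₀` large the measure of the `b` which contain a prime
in a block `≥ j₀` which is not in `G` is at most `ε X g(X)`.

PROOF (from `C_DEC`, and `tail`, `ht`, `g_mono` of `Hyp₂`; compare `Z_EX2`, `Pool/Agent/Helper17/PP0/EX2.lean`).
The measure is at most `∑_{q ∈ P, q ∉ G, bl q ≥ j₀} ∑_{r ⊆ P} e(N q nm r/X)`; by `ht` with `f = 1`, `Y = X/N q`,
the inner sum is `≤ K Y g(Y) ≤ K² X g(X)/N q`. Apply `tail` with `ε/K²` and `n` larger than all the blocks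
of the primes of `P`. -/
def R_EX7 : Prop :=
  ∀ (p : ℕ) [Fact p.Prime] (B B₀ k U Λ C : Type) [Field k] [Fintype k] [Algebra (ZMod p) k]
    [AddCommGroup U] [Module k U] [Fintype U] [AddCommGroup Λ] [Module k Λ] [Fintype Λ]
    [AddCommGroup C] [Finite C] (S : Sys p B B₀ k U Λ C) (ψ : AddChar k ℂ) (G : B → Prop)
    (g : ℝ → ℝ) (K : ℕ), Hyp₂ S ψ G g K →
  ∀ ε : ℝ, 0 < ε → ∃ j₁ : ℕ, ∀ j₀, j₁ ≤ j₀ → ∀ X : ℝ, 1 ≤ X → ∀ P : Finset B,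
    ∑ b ∈ P.powerset with (∃ q ∈ b, ¬ G q ∧ j₀ ≤ S.bl q), Real.exp (-(S.nm b / X)) ≤
      ε * (X * g X)

/-- **R_SM5** (sum of the bounds of `R_OSZ`), `T = ti A L + T₀`.

PROOF. Let `δ = 1/(2K)`, `a = (T+2)^K'`, bounded by a power of `log L`. For `√L ≤ j ≤ L/2`: `L - (j+1) ≥ L/3` for
`L` large, so the sum of these terms is at most `a (L/3)^(-δ) ∑_{j ≤ L} 1/j ≤ a (L/3)^(-δ) (1 + log L) → 0`. For
`L/2 < j ≤ L`: `1/j ≤ 2/L`, and `∑_j (max 1 (L-(j+1)))^(-δ) ≤ 2 + ∑_{1 ≤ m ≤ L} m^(-δ) ≤ 2 + √L + L L^(-δ/2)`, so the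
sum is at most `a (2/L) (2 + √L + L^(1-δ/2)) → 0`. For `j = L + 1 + m`, `m ≥ 0`: the term is at most
`a 2^(-m)/L`, and the sum is at most `2 a/L → 0`. (Compare `C_SM2`, `Pool/Agent/Helper59/PP/CSM2.lean`.) -/
def R_SM5 : Prop :=
  ∀ (K K' A T₀ : ℕ) (ε : ℝ), 1 ≤ K → 0 < ε → ∃ L₀ : ℕ, ∀ L, L₀ ≤ L → ∀ J : ℕ,
    ∑ j ∈ Ico (Nat.sqrt L) J, (((ti A L + T₀ : ℕ) : ℝ) + 2) ^ K' / j *
      min 1 (2 ^ (L + 1) / 2 ^ j) *
      ((max 1 (L - (j + 1)) : ℕ) : ℝ) ^ (-(1 / (2 * K) : ℝ)) ≤ ε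

/-- **R_SM6** (sum of the bounds of `R_OSA`).

PROOF. `A = K (K' + K + 3)`. For `i, j ≥ T ≥ ti A L`, `2^(-min(i,j)/K) ≤ 2^(-A Nat.log 2 L/K) =
2^(-(K'+K+3) Nat.log 2 L) ≤ (2/L)^(K'+K+3)` (`2^(Nat.log 2 L) > L/2`). With `n = i + j` (at most `n + 1` pairs)
the sum is at most `(L+2)^K' (2/L)^(K'+K+3) ∑_n (n+1)^(K+1) min(1, 2^(L+1-n)) ≤
(L+2)^K' (2/L)^(K'+K+3) C (L+2)^(K+2)` (as in `C_SM4`, `Pool/Agent/Helper47/PP/CSM4.lean`:
`∑_{n ≤ L+1} (n+1)^(K+1) ≤ (L+2)^(K+2)`; for `n = L+1+m`, `(n+1)^(K+1) ≤ (L+2)^(K+1) (m+1)^(K+1)`), which tends to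
`0` as `L → ∞`. -/
def R_SM6 : Prop :=
  ∀ (K K' : ℕ), 1 ≤ K → ∃ A : ℕ, ∀ ε : ℝ, 0 < ε → ∃ L₀ : ℕ, ∀ L, L₀ ≤ L → ∀ T, ti A L ≤ T →
    ∀ J : ℕ, ∑ i ∈ Ico T J, ∑ j ∈ Ico T J,
      ((L : ℝ) + 2) ^ K' * ((i : ℝ) + j) ^ K * (2 : ℝ) ^ (-(min i j : ℝ) / K) *
        min 1 (2 ^ (L + 1) / 2 ^ (i + j)) ≤ ε

end Pool.Agent.Helper17.PP2
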