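import Pool.Agent.Helper17.PP2.FinB
import Pool.Agent.Helper17.PP0.Goals

/-!
# Project PP, stage 3 (R): the assembly of `MT₂`
-/

namespace Pool.Agent.Helper17.PP2

open Finset Pool.Agent.Helper17.PP Pool.Agent.Helper17.PP0

theorem fin₂ (hCNT : C_CNT) (hLRG : Z_LRG) (hSML : Z_SML) (hMNS : Z_MNS) (hMNB : C_MNB)
    (hEX0 : Z_EX0) (hEX2 : Z_EX2) (hEX5 : Z_EX5) (hEX6 : Z_EX6) (hSM1 : C_SM1) (hSM2 : C_SM2)
    (hSM3 : C_SM3) (hSTJ : C_STJ) (hFUL : R_FUL) (hOSZ : R_OSZ) (hOSA : R_OSA) (hEX7 : R_EX7)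
    (hSM5 : R_SM5) (hSM6 : R_SM6) : MT₂ := by
  classical
  intro p _ B B₀ k U Λ C _ _ _ _ _ _ _ _ _ _ _ S ψ G₁ g K hyp₂ ε hε
  have hyp : Hyp₀ S ψ g K := hyp₂.toHyp₀
  obtain ⟨K₁, hK₁⟩ := hLRG p B B₀ k U Λ C S ψ g K hyp
  obtain ⟨K₂, hK₂⟩ := hSML p B B₀ k U Λ C S ψ g K hyp
  obtain ⟨K₃, hK₃⟩ := hOSA p B B₀ k U Λ C S ψ G₁ g K hyp₂
  obtain ⟨K₄, hK₄⟩ := hMNS p B B₀ k U Λ C S ψ g K hyp
  obtain ⟨K₅, hK₅⟩ := hEX2 p B B₀ k U Λ C S ψ g K hyp
  obtain ⟨K₆, hK₆⟩ := hOSZ p B B₀ k U Λ C S ψ g K hyp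
  have hK : 1 ≤ K := hyp.one_le
  set E := 2 * K * (K + 1) with hE
  set A := 4 * K with hAdef
  obtain ⟨A₂, hA₂⟩ := hSM6 K K₃ hK
  have hE1 : 1 ≤ E := by
    rw [hE]; nlinarith
  set Q : ℝ := (Fintype.card k : ℝ) with hQ
  have hQ2 : 2 ≤ Q := by
    rw [hQ]; exact_mod_cast Fintype.one_lt_card (α := k)
  set ρ : ℝ := (Fintype.card U / Fintype.card Λ : ℝ) with hρ
  have hρ0 : 0 ≤ ρ := by positivity
  set W : ℝ := 5 + (ρ * (Q - 1) * K₄ + 2 * K₂ + 2 * K₁ + K₃ + K₆) with hW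
  have hW0 : 0 < W := by
    have : 0 ≤ ρ * (Q - 1) * K₄ := by
      have : 0 ≤ Q - 1 := by linarith
      positivity
    positivity
  set e : ℝ := ε / W with he
  have he0 : 0 < e := by positivity
  -- the choice of `j₀`
  obtain ⟨jE, hjE⟩ := le_th_of_large E hE1
  obtain ⟨j5, hj5⟩ := hEX5 p B B₀ k U Λ C S ψ g K hyp E e hE1 he0
  obtain ⟨j7, hj7⟩ := hEX7 p B B₀ k U Λ C S ψ G₁ g K hyp₂ e he0
  obtain ⟨j1, hj1⟩ := hSM1 K e hK he0
  obtain ⟨j2, hj2⟩ := hSM2 K K₂ A e hK he0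
  obtain ⟨j3, hj3⟩ := hSM3 K E e hK hE1 he0
  obtain ⟨n5, hn5⟩ := exists_nat_ge (K₅ / e : ℝ)
  set j₀ := 2 + jE + j5 + j7 + j1 + j2 + j3 + n5 with hj₀
  have hj₀2 : 2 ≤ j₀ := by omega
  have hK5 : (K₅ : ℝ) / j₀ ≤ e := by
    rw [div_le_iff₀ (by positivity)]
    rw [div_le_iff₀ he0] at hn5
    have : (n5 : ℝ) ≤ j₀ := by exact_mod_cast (by omega : n5 ≤ j₀)
    nlinarith
  have hth : ∀ j, j₀ ≤ j → j ≤ th E j := fun j hj ↦ hjE j (by omega)
  -- the choice of `X₀`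
  obtain ⟨L2, hL2⟩ := hj2 j₀ (by omega)
  obtain ⟨L3, hL3⟩ := hj3 j₀ (by omega)
  obtain ⟨L5, hL5⟩ := hSM5 K K₆ A₂ j₀ e hK he0
  obtain ⟨L6, hL6⟩ := hA₂ e he0
  obtain ⟨L7, hL7⟩ := ti_le_sqrt A₂ j₀
  obtain ⟨X0, hX0⟩ := hEX0 p B B₀ k U Λ C S ψ g K hyp j₀ e he0
  obtain ⟨X6, hX6⟩ := hEX6 p B B₀ k U Λ C S ψ g K hyp E e hE1 he0
  refine ⟨max (2 ^ (L2 + L3 + L5 + L6 + L7 + 9 + j₀ * j₀)) (max X0 X6), fun X hX P ↦ ?_⟩
  have hXp : (2 : ℝ) ^ (L2 + L3 + L5 + L6 + L7 + 9 + j₀ * j₀) ≤ X := (le_max_left _ _).trans hX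
  have hXX := (le_max_right _ _).trans hX
  have hXX0 : X0 ≤ X := (le_max_left _ _).trans hXX
  have hXX6 : X6 ≤ X := (le_max_right _ _).trans hXX
  have hLX := le_lg hXp
  set L := lg X with hL
  set s := Nat.sqrt L with hs
  set T := ti A₂ L + j₀ with hT
  have hX1 : 1 ≤ X := le_trans (one_le_pow₀ (by norm_num)) hXp
  have hj₀s : j₀ ≤ s := by
    rw [hs, Nat.le_sqrt]; omega
  have hTs : T ≤ s := hL7 L (by omega)
  have hj₀T : j₀ ≤ T := by omega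
  have hgX : 1 ≤ g X := hyp.g_one X
  have hXg : 0 ≤ X * g X := by positivity
  set P' := P.filter fun q ↦ S.bl q ≤ th E s with hP'
  have hP'bl : ∀ q ∈ P', S.bl q ≤ th E s := fun q hq ↦ (mem_filter.1 hq).2
  set J := th E s + 1 with hJ
  have hP'J : ∀ q ∈ P', S.bl q < J := fun q hq ↦ Nat.lt_succ_of_le (hP'bl q hq)
  -- the exceptional sets
  have b1 := step1 (Λ := Λ) S hCNT G₁ E j₀ s X P
  have b6 := hX6 X hXX6 P
  have b0 := hX0 X hXX0 P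
  have b2 := (hK₅ j₀ X P (by omega) hX1).trans (mul_le_mul_of_nonneg_right hK5 hXg)
  have b5 := hj5 j₀ (by omega) X hX1 P
  have b7 := hj7 j₀ (by omega) X hX1 P
  -- the good sets
  have b4 := step4 (Λ := Λ) S G₁ E j₀ s T P' X hP'bl hj₀T
  have hT1 : ∀ j, j₀ ≤ j → T1 S E P' X j ≤ ρ * (Q - 1) * M1 S E P' X j +
      K₂ * (((ti A j : ℝ) + 2) ^ K₂ / j * min 1 (2 ^ (lg X + 1) / 2 ^ j) *
        ((max 1 (min j (lg X - (j + 1 + ti A j))) : ℕ) : ℝ) ^ (-(1 / K : ℝ))) * (X * g X) +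
      K₁ * (∑ i ∈ Ico (ti A j) (tb E j),
        ((i : ℝ) + 1) ^ K * (2 : ℝ) ^ (-(min i j : ℝ) / K)) * (X * g X) := by
    intro j hj
    refine step5 S hSTJ ψ hyp.ψ_ne g K K₁ K₂ E A X P' j ?_ (by omega) (hth j hj) hX1
      (by linarith) (fun i ↦ hK₁ E i j X P' (by omega) (hth j hj) hX1)
      (hK₂ E j (ti A j) X P' (by omega) (hth j hj) hX1)
    unfold ti
    have : 1 ≤ Nat.log 2 j := Nat.le_log_of_pow_le (by norm_num) (by omega)
    have : 1 ≤ A := by omega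
    nlinarith
  have hsumSM : ∀ J, ∑ j ∈ Ico j₀ J, (K₂ * (((ti A j : ℝ) + 2) ^ K₂ / j *
        min 1 (2 ^ (lg X + 1) / 2 ^ j) *
        ((max 1 (min j (lg X - (j + 1 + ti A j))) : ℕ) : ℝ) ^ (-(1 / K : ℝ))) * (X * g X) +
      K₁ * (∑ i ∈ Ico (ti A j) (tb E j),
        ((i : ℝ) + 1) ^ K * (2 : ℝ) ^ (-(min i j : ℝ) / K)) * (X * g X)) ≤
      (K₂ + K₁) * e * (X * g X) := by
    intro J
    rw [Finset.sum_add_distrib, ← Finset.sum_mul, ← Finset.sum_mul, ← Finset.mul_sum,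
      ← Finset.mul_sum]
    have c2 := hL2 L (by omega) J
    have c1 := hj1 j₀ (by omega) J
    have c2' := mul_le_mul_of_nonneg_left c2 (Nat.cast_nonneg (α := ℝ) K₂)
    have c1' := mul_le_mul_of_nonneg_left c1 (Nat.cast_nonneg (α := ℝ) K₁)
    have c2'' := mul_le_mul_of_nonneg_right c2' hXg
    have c1'' := mul_le_mul_of_nonneg_right c1' hXg
    calc _ ≤ K₂ * e * (X * g X) + K₁ * e * (X * g X) := add_le_add c2'' c1''
      _ = _ := by ring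
  have hrest0 : ∀ j, 0 ≤ (K₂ * (((ti A j : ℝ) + 2) ^ K₂ / j *
        min 1 (2 ^ (lg X + 1) / 2 ^ j) *
        ((max 1 (min j (lg X - (j + 1 + ti A j))) : ℕ) : ℝ) ^ (-(1 / K : ℝ))) * (X * g X) +
      K₁ * (∑ i ∈ Ico (ti A j) (tb E j),
        ((i : ℝ) + 1) ^ K * (2 : ℝ) ^ (-(min i j : ℝ) / K)) * (X * g X)) := by
    intro j
    positivity
  -- small `j`
  have hM4 : ∑ j ∈ Ico j₀ s, M1 S E P' X j ≤ K₄ * e * (X * g X) := by
    have h1 : ∀ j ∈ Ico j₀ s, M1 S E P' X j ≤ K₄ * ((1 / j : ℝ) *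
      (((j + 1 : ℕ) : ℝ) / (min (th E j + 1) (L - j - 1) : ℕ)) ^ (1 / (2 * K) : ℝ)) *
        (X * g X) := by
      intro j hj
      rw [mem_Ico] at hj
      have h2 := hK₄ E j X P' (by omega) (hth j hj.1) hX1 (by
        rw [← hL]; exact sqrt_small (by omega) hj.2)
      have h3 : M1 S E P' X j ≤ ∑ b ∈ P'.powerset, ∑ q ∈ b with (S.Wt E b q ∧ S.bl q = j),
          (1 / Fintype.card k : ℝ) ^ (S.rt E b q).card * Real.exp (-(S.nm b / X)) := by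
        unfold M1
        exact Finset.sum_le_sum_of_subset_of_nonneg (Finset.filter_subset _ _)
          fun b _ _ ↦ by positivity
      refine h3.trans (h2.trans (le_of_eq ?_))
      ring
    refine (Finset.sum_le_sum h1).trans ?_
    rw [← Finset.sum_mul, ← Finset.mul_sum]
    exact mul_le_mul_of_nonneg_right (mul_le_mul_of_nonneg_left (hL3 L (by omega))
      (Nat.cast_nonneg _)) hXg
  have hS1 : ∑ j ∈ Ico j₀ s, T1 S E P' X j ≤ ρ * (Q - 1) * (K₄ * e * (X * g X)) +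
      (K₂ + K₁) * e * (X * g X) := by
    refine (Finset.sum_le_sum fun j hj ↦ (hT1 j (mem_Ico.1 hj).1).trans_eq
      (add_assoc _ _ _)).trans ?_
    rw [Finset.sum_add_distrib, ← Finset.mul_sum]
    refine add_le_add (mul_le_mul_of_nonneg_left hM4 ?_) ?_
    · have : 0 ≤ Q - 1 := by linarith
      positivity
    · exact hsumSM s
  -- large `j`
  set F : ℝ := ∑ b ∈ P'.powerset with S.Fam b, Real.exp (-(S.nm b / X)) with hF
  have hS2 : ∑ j ∈ Ico s J, T1 S E P' X j ≤ ρ * (Q * F) +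
      (K₂ + K₁) * e * (X * g X) := by
    refine (Finset.sum_le_sum fun j hj ↦ (hT1 j (by
      have := (mem_Ico.1 hj).1; omega)).trans_eq (add_assoc _ _ _)).trans ?_
    rw [Finset.sum_add_distrib, ← Finset.mul_sum]
    refine add_le_add ?_ ?_
    · rw [mul_assoc]
      exact mul_le_mul_of_nonneg_left (step6 (Λ := Λ) S hMNB E s P' X hP'bl) hρ0
    · refine le_trans ?_ (hsumSM J)
      exact Finset.sum_le_sum_of_subset_of_nonneg (Finset.Ico_subset_Ico hj₀s le_rfl)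
        fun j _ _ ↦ hrest0 j
  -- the zero labels
  have hZ : ∀ s' : k, ∑ j ∈ Ico s J, Z1 S ψ T E P' X j s' ≤ K₆ * e * (X * g X) := by
    intro s'
    have h1 : ∀ j ∈ Ico s J, Z1 S ψ T E P' X j s' ≤
        K₆ * ((((ti A₂ L + j₀ : ℕ) : ℝ) + 2) ^ K₆ / j * min 1 (2 ^ (L + 1) / 2 ^ j) *
        ((max 1 (L - (j + 1)) : ℕ) : ℝ) ^ (-(1 / (2 * K) : ℝ))) * (X * g X) := by
      intro j hj
      rw [mem_Ico] at hj
      have hmono : th E s ≤ th E j := by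
        unfold th
        exact Nat.pow_le_pow_right (by norm_num) (Nat.div_le_div_right hj.1)
      have h2 := hK₆ E T j s' X P' (by omega) (by omega)
        (fun q hq ↦ (hP'bl q hq).trans hmono) hX1
      have hm := min_bound X j
      refine (show Z1 S ψ T E P' X j s' ≤ _ from h2).trans ?_
      refine mul_le_mul_of_nonneg_right ?_ hXg
      have h0 : (0 : ℝ) ≤ ((max 1 (L - (j + 1)) : ℕ) : ℝ) ^ (-(1 / (2 * K) : ℝ)) := by
        positivity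
      have h01 : (0 : ℝ) ≤ K₆ * (((T : ℝ) + 2) ^ K₆ / j) := by positivity
      calc (K₆ : ℝ) * ((T : ℝ) + 2) ^ K₆ / j * min 1 (X / 2 ^ j) *
            ((max 1 (lg X - (j + 1)) : ℕ) : ℝ) ^ (-(1 / (2 * K) : ℝ))
          = K₆ * (((T : ℝ) + 2) ^ K₆ / j) * min 1 (X / 2 ^ j) *
            ((max 1 (L - (j + 1)) : ℕ) : ℝ) ^ (-(1 / (2 * K) : ℝ)) := by
            rw [← hL]; ring
        _ ≤ K₆ * (((T : ℝ) + 2) ^ K₆ / j) * min 1 (2 ^ (lg X + 1) / 2 ^ j) *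
            ((max 1 (L - (j + 1)) : ℕ) : ℝ) ^ (-(1 / (2 * K) : ℝ)) :=
            mul_le_mul_of_nonneg_right (mul_le_mul_of_nonneg_left hm h01) h0
        _ = _ := by rw [← hT, ← hL]; ring
    refine (Finset.sum_le_sum h1).trans ?_
    rw [← Finset.sum_mul, ← Finset.mul_sum]
    exact mul_le_mul_of_nonneg_right (mul_le_mul_of_nonneg_left (hL5 L (by omega) J)
      (Nat.cast_nonneg _)) hXg
  -- the oscillating sums
  have hO : ∀ s' : k, s' ≠ 0 → ∑ j ∈ Ico s J, ∑ i ∈ Ico T J with i ≠ j,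
      ‖A1 S ψ G₁ T E P' X i j s'‖ ≤ K₃ * e * (X * g X) := by
    intro s' hs'
    have h1 : ∀ j ∈ Ico s J, ∀ i ∈ (Ico T J).filter fun i ↦ i ≠ j,
        ‖A1 S ψ G₁ T E P' X i j s'‖ ≤ K₃ * (((L : ℝ) + 2) ^ K₃ * ((i : ℝ) + j) ^ K *
          (2 : ℝ) ^ (-(min i j : ℝ) / K) * min 1 (2 ^ (L + 1) / 2 ^ (i + j))) * (X * g X) := by
      intro j hj i hi
      rw [mem_filter, mem_Ico] at hi
      rw [mem_Ico] at hj
      have h2 := hK₃ E T i j s' X P' (by omega) hi.1.1 (by omega) hi.2 hs' hX1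
      have hm := min_bound X (i + j)
      refine (show ‖A1 S ψ G₁ T E P' X i j s'‖ ≤ _ from h2).trans ?_
      refine mul_le_mul_of_nonneg_right ?_ hXg
      calc (K₃ : ℝ) * (lg X + 2) ^ K₃ * (i + j) ^ K * (2 : ℝ) ^ (-(min i j : ℝ) / K) *
            min 1 (X / 2 ^ (i + j))
          = (K₃ * (((lg X : ℝ) + 2) ^ K₃ * ((i : ℝ) + j) ^ K *
            (2 : ℝ) ^ (-(min i j : ℝ) / K))) * min 1 (X / 2 ^ (i + j)) := by ring
        _ ≤ (K₃ * (((lg X : ℝ) + 2) ^ K₃ * ((i : ℝ) + j) ^ K *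
            (2 : ℝ) ^ (-(min i j : ℝ) / K))) * min 1 (2 ^ (lg X + 1) / 2 ^ (i + j)) :=
            mul_le_mul_of_nonneg_left hm (by positivity)
        _ = _ := by ring
    have h2 : ∑ j ∈ Ico s J, ∑ i ∈ Ico T J with i ≠ j, ‖A1 S ψ G₁ T E P' X i j s'‖ ≤
        ∑ j ∈ Ico T J, ∑ i ∈ Ico T J,
          K₃ * (((L : ℝ) + 2) ^ K₃ * ((i : ℝ) + j) ^ K *
          (2 : ℝ) ^ (-(min i j : ℝ) / K) * min 1 (2 ^ (L + 1) / 2 ^ (i + j))) * (X * g X) := by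
      refine (Finset.sum_le_sum fun j hj ↦ (Finset.sum_le_sum (h1 j hj)).trans
        (Finset.sum_le_sum_of_subset_of_nonneg (Finset.filter_subset _ _)
          fun i _ _ ↦ by positivity)).trans ?_
      exact Finset.sum_le_sum_of_subset_of_nonneg (Finset.Ico_subset_Ico hTs le_rfl)
        fun j _ _ ↦ by positivity
    refine h2.trans ?_
    rw [Finset.sum_comm]
    simp only [← Finset.sum_mul, ← Finset.mul_sum]
    exact mul_le_mul_of_nonneg_right (mul_le_mul_of_nonneg_left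
      (hL6 L (by omega) T (by omega) J) (Nat.cast_nonneg _)) hXg
  have hT2 : ∑ j ∈ Ico s J, T2 S G₁ T E P' X j ≤ (1 / Q) * (ρ * (Q * F) +
      (K₂ + K₁) * e * (X * g X)) + (K₃ + K₆) * e * (X * g X) := by
    have h1 : ∀ j ∈ Ico s J, T2 S G₁ T E P' X j ≤ (1 / Q) * T1 S E P' X j +
        (1 / Q) * ∑ s : k with s ≠ 0, (Z1 S ψ T E P' X j s +
          ∑ i ∈ Ico T J with i ≠ j, ‖A1 S ψ G₁ T E P' X i j s‖) := by
      intro j hj
      rw [mem_Ico] at hj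
      exact step7 S hFUL ψ hyp.ψ_ne G₁ T E J P' X j (hth j (by omega)) hP'J
    refine (Finset.sum_le_sum h1).trans ?_
    rw [Finset.sum_add_distrib, ← Finset.mul_sum, ← Finset.mul_sum]
    have hQ0 : (0 : ℝ) ≤ 1 / Q := by positivity
    refine add_le_add (mul_le_mul_of_nonneg_left hS2 hQ0) ?_
    rw [Finset.sum_comm]
    have h2 : ∑ s' : k with s' ≠ 0, ∑ j ∈ Ico s J, (Z1 S ψ T E P' X j s' +
          ∑ i ∈ Ico T J with i ≠ j, ‖A1 S ψ G₁ T E P' X i j s'‖) ≤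
        ∑ _s' : k with _s' ≠ 0, (K₃ + K₆) * e * (X * g X) := by
      refine Finset.sum_le_sum fun s' hs' ↦ ?_
      rw [mem_filter] at hs'
      rw [Finset.sum_add_distrib]
      have a1 := hZ s'
      have a2 := hO s' hs'.2
      linarith
    rw [Finset.sum_const, nsmul_eq_mul] at h2
    have h3 : (((univ : Finset k).filter fun s' ↦ s' ≠ 0).card : ℝ) ≤ Q := by
      rw [hQ]
      exact_mod_cast Finset.card_le_univ _
    have h0 : 0 ≤ (K₃ + K₆) * e * (X * g X) := by positivity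
    have h4 := h2.trans (mul_le_mul_of_nonneg_right h3 h0)
    rw [one_div, inv_mul_le_iff₀ (by linarith)]
    exact h4
  -- conclusion for the good sets
  set G : ℝ := ∑ b ∈ P'.powerset with (S.Fam b ∧ Ok S G₁ j₀ b ∧
        ∃ q, S.Wt E b q ∧ j₀ ≤ S.bl q ∧ Fintype.card k - 1 ≤ S.cnt₂ E b q),
        Real.exp (-(S.nm b / X)) with hG
  have hF0 : 0 ≤ F := by positivity
  have hgood : (Q - 1) * G ≤ ρ * F +
      (ρ * (Q - 1) * K₄ + 2 * K₂ + 2 * K₁ + K₃ + K₆) * e * (X * g X) := by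
    have h3 : (1 / Q) * ((K₂ + K₁) * e * (X * g X)) ≤ 1 * ((K₂ + K₁) * e * (X * g X)) := by
      refine mul_le_mul_of_nonneg_right ?_ (by positivity)
      rw [div_le_one (by linarith)]
      linarith
    have h4 : (1 / Q) * (ρ * (Q * F) + (K₂ + K₁) * e * (X * g X)) =
        ρ * F + (1 / Q) * ((K₂ + K₁) * e * (X * g X)) := by
      field_simp
    rw [h4] at hT2
    have h5 : (Q - 1) * G ≤ _ := b4
    refine h5.trans ((add_le_add hS1 hT2).trans ?_)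
    nlinarith [h3]
  have hG2 : G ≤ ρ * (1 / (Q - 1)) * F +
      (ρ * (Q - 1) * K₄ + 2 * K₂ + 2 * K₁ + K₃ + K₆) * e * (X * g X) := by
    have hQ1 : 0 < Q - 1 := by linarith
    have h0 : 0 ≤ (ρ * (Q - 1) * K₄ + 2 * K₂ + 2 * K₁ + K₃ + K₆) * e * (X * g X) := by
      positivity
    have h1 : G ≤ (ρ * F +
      (ρ * (Q - 1) * K₄ + 2 * K₂ + 2 * K₁ + K₃ + K₆) * e * (X * g X)) / (Q - 1) := by
      rw [le_div_iff₀ hQ1]; linarith
    refine h1.trans ?_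
    rw [add_div]
    refine add_le_add (le_of_eq ?_) (div_le_self h0 (by linarith))
    field_simp
  have hFF : F ≤ ∑ b ∈ P.powerset with S.Fam b, Real.exp (-(S.nm b / X)) := by
    refine Finset.sum_le_sum_of_subset_of_nonneg ?_ fun b _ _ ↦ by positivity
    intro b hb
    rw [mem_filter, mem_powerset] at hb ⊢
    exact ⟨hb.1.trans (Finset.filter_subset _ _), hb.2⟩
  have hθ : 0 ≤ ρ * (1 / (Q - 1)) := by
    have hQ1 : 0 < Q - 1 := by linarith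
    positivity
  have hG3 := hG2.trans (add_le_add (mul_le_mul_of_nonneg_left hFF hθ) le_rfl)
  have hWe : W * e = ε := by
    rw [he]; field_simp
  have hfinal : (5 + (ρ * (Q - 1) * K₄ + 2 * K₂ + 2 * K₁ + K₃ + K₆)) * e * (X * g X) =
      ε * (X * g X) := by
    rw [← hWe]
  refine b1.trans ?_
  have b1' := add_le_add (add_le_add (add_le_add (add_le_add (add_le_add b6 b0) b2) b5) b7) hG3
  refine b1'.trans ?_
  nlinarith [hfinal]

end Pool.Agent.Helper17.PP2
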