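import Pool.Agent.Helper17.PP0.Parts
import Pool.Agent.Helper86.PP2.RFUL
import Pool.Agent.Helper74.PP2.ROSZ
import Pool.Agent.Helper30.PP2.ROSA
import Pool.Agent.Helper91.PP2.REX7
import Pool.Agent.Helper36.PP2.RSM5
import Pool.Agent.Helper36.PP2.RSM6

/-!
# Project PP, stage 3 (R): the parts of the abstract moment theorem with two-sided symbols
-/
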