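import Pool.Agent.Helper17.PP0.Asm
import Pool.Agent.Helper17.PP2.Fin
import Pool.Agent.Helper17.PP2.Parts

/-!
# Project PP, stage 3 (R): the abstract moment theorem with two-sided symbols
-/

namespace Pool.Agent.Helper17.PP2

open Pool.Agent.Helper17.PP0

/-- The abstract moment theorem with two-sided symbols. -/
theorem mt₂ : MT₂ :=
  fin₂ Pool.Agent.Helper28.PP.c_cnt
    (LRG.c_lrg Pool.Agent.Helper83.PP.c_lab Pool.Agent.Helper22.PP.c_dec)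
    (SML.c_sml Pool.Agent.Helper83.PP.c_lab Pool.Agent.Helper22.PP.c_dec
      (Pool.Agent.Helper79.PP.c_psm Pool.Agent.Helper83.PP.c_lab))
    (MNS.c_mns Pool.Agent.Helper22.PP.c_dec)
    Pool.Agent.Helper61.PP.c_mnb
    EX0.c_ex0
    (EX2.c_ex2 Pool.Agent.Helper22.PP.c_dec)
    (EX5.c_ex5 Pool.Agent.Helper22.PP.c_dec)
    (EX6.c_ex6 Pool.Agent.Helper22.PP.c_dec)
    Pool.Agent.Helper29.PP.c_sm1 Pool.Agent.Helper59.PP.c_sm2 Pool.Agent.Helper39.PP.c_sm3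
    (Pool.Agent.Helper29.PP.c_stj (Pool.Agent.Helper23.PP.c_ort Pool.Agent.Helper83.PP.c_lab)
      (Pool.Agent.Helper96.PP.c_pmn Pool.Agent.Helper83.PP.c_lab))
    (Pool.Agent.Helper86.PP2.r_ful Pool.Agent.Helper83.PP.c_lab)
    (Pool.Agent.Helper74.PP2.r_osz Pool.Agent.Helper83.PP.c_lab Pool.Agent.Helper22.PP.c_dec)
    (Pool.Agent.Helper30.PP2.r_osa Pool.Agent.Helper22.PP.c_dec)
    (Pool.Agent.Helper91.PP2.r_ex7 Pool.Agent.Helper22.PP.c_dec)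
    Pool.Agent.Helper36.PP2.r_sm5 Pool.Agent.Helper36.PP2.r_sm6

end Pool.Agent.Helper17.PP2
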