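import Pool.Agent.Helper17.PP.FinD0
import Pool.Agent.Helper17.PP2.Goals

/-!
# Project PP, stage 3 (R): lemmas for the assembly of `MT₂`
-/

namespace Pool.Agent.Helper17.PP2

open Finset Pool.Agent.Helper17.PP Pool.Agent.Helper17.PP0

section

variable {p : ℕ} {B B₀ k U Λ C : Type} [Field k] [AddCommGroup U] [Module k U]
    [AddCommGroup Λ] [Module k Λ] [AddCommGroup C] (S : Sys p B B₀ k U Λ C)

theorem Ok.mono {G : B → Prop} {T T' : ℕ} (h : T ≤ T') {b : Finset B} (hb : Ok S G T b) :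
    Ok S G T' b :=
  ⟨fun q hq q' hq' hne he ↦ (hb.1 q hq q' hq' hne he).trans_le h,
    fun q hq hT ↦ hb.2 q hq (h.trans hT)⟩

open Classical in
/-- Exactly one of the cases `Zr`, `Tp .. q₁`. -/
theorem split_one (G : B → Prop) (T E : ℕ) (b : Finset B) (q : B) (hb : Ok S G T b)
    (c y : B → k) (v : ℂ) :
    v = (if Zr S T E b q c y then v else 0) +
      ∑ q₁ ∈ b, if Tp S T E b q c y q₁ then v else 0 := by
  by_cases h : Zr S T E b q c y
  · rw [if_pos h, Finset.sum_eq_zero, add_zero]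
    intro q₁ hq₁
    rw [if_neg]
    intro h1
    exact h q₁ h1.mem h1.ne h1.le h1.nz
  · rw [if_neg h, zero_add]
    unfold Zr at h
    push Not at h
    obtain ⟨q', hq', hne, hT, hnz⟩ := h
    obtain ⟨q₁, hq₁, hmax⟩ := Finset.exists_max_image
      (b.filter fun q' ↦ q' ≠ q ∧ T ≤ S.bl q' ∧ Nz S E (S.bl q) c y q') S.bl
      ⟨q', mem_filter.2 ⟨hq', hne, hT, hnz⟩⟩
    rw [mem_filter] at hq₁
    have hTp : Tp S T E b q c y q₁ := by
      refine ⟨hq₁.1, hq₁.2.1, hq₁.2.2.1, hq₁.2.2.2, fun q'' hq'' hne1 hne2 hT2 hnz2 ↦ ?_⟩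
      refine lt_of_le_of_ne (hmax q'' (mem_filter.2 ⟨hq'', hne1, hT2, hnz2⟩)) fun he ↦ ?_
      have := hb.1 q'' hq'' q₁ hq₁.1 hne2 he
      omega
    rw [Finset.sum_eq_single q₁]
    · rw [if_pos hTp]
    · intro q₂ hq₂ hne2
      rw [if_neg]
      intro h2
      have a1 := h2.top q₁ hTp.mem hTp.ne (Ne.symm hne2) hTp.le hTp.nz
      have a2 := hTp.top q₂ h2.mem h2.ne hne2 h2.le h2.nz
      omega
    · intro h2
      exact absurd hTp.mem h2

end

section

variable {p : ℕ} {B B₀ k U Λ C : Type} [Field k] [Fintype k]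
    [Algebra (ZMod p) k] [AddCommGroup U] [Module k U] [Fintype U] [AddCommGroup Λ] [Module k Λ]
    [Fintype Λ] [AddCommGroup C] (S : Sys p B B₀ k U Λ C)

open Classical in
/-- The splitting of `ful`. -/
theorem ful_split (ψ : AddChar k ℂ) (G : B → Prop) (T E : ℕ) (P b : Finset B) (q : B) (s : k)
    (hb : Ok S G T b) :
    ful S ψ E P b q s (fun _ _ ↦ True) = ful S ψ E P b q s (Zr S T E b q) +
      ∑ q₁ ∈ b, ful S ψ E P b q s (fun c y ↦ Tp S T E b q c y q₁) := by
  unfold ful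
  rw [← Finset.mul_sum, ← mul_add]
  congr 1
  rw [Finset.sum_comm (s := b), ← Finset.sum_add_distrib]
  refine Finset.sum_congr rfl fun x _ ↦ ?_
  rw [Finset.sum_comm (s := b), ← Finset.sum_add_distrib]
  refine Finset.sum_congr rfl fun t _ ↦ ?_
  rw [Finset.sum_comm (s := b), ← Finset.sum_add_distrib]
  refine Finset.sum_congr rfl fun χ _ ↦ ?_
  rw [Finset.sum_comm (s := b), ← Finset.sum_add_distrib]
  refine Finset.sum_congr rfl fun c _ ↦ ?_
  simp only [Finset.sum_filter]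
  rw [Finset.sum_comm (s := b), ← Finset.sum_add_distrib]
  refine Finset.sum_congr rfl fun y _ ↦ ?_
  rw [if_pos trivial]
  exact split_one S G T E b q hb c y _

theorem ful_false (ψ : AddChar k ℂ) (E : ℕ) (P b : Finset B) (q : B) (s : k)
    (F : (B → k) → (B → k) → Prop) (hF : ∀ c y, ¬ F c y) : ful S ψ E P b q s F = 0 := by
  classical
  unfold ful
  simp only [hF, Finset.filter_false, Finset.sum_empty, Finset.sum_const_zero, mul_zero]

theorem ful_tp_zero (ψ : AddChar k ℂ) (T E : ℕ) (P b : Finset B) (q q₁ : B) (s : k)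
    (h : S.bl q₁ < T ∨ S.bl q₁ = S.bl q) :
    ful S ψ E P b q s (fun c y ↦ Tp S T E b q c y q₁) = 0 := by
  refine ful_false S ψ E P b q s _ fun c y hTp ↦ ?_
  rcases h with h | h
  · have := hTp.le
    omega
  · rcases hTp.nz.2 with h1 | h1
    · omega
    · exact h1.1 h

end

section

variable {p : ℕ} [Fact p.Prime] {B B₀ k U Λ C : Type} [Field k] [Fintype k]
    [Algebra (ZMod p) k] [AddCommGroup U] [Module k U] [Fintype U] [AddCommGroup Λ] [Module k Λ]
    [Fintype Λ] [AddCommGroup C] (S : Sys p B B₀ k U Λ C)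

open Classical in
/-- The sum of the `cnt₂` over the block `j`, `b` with `Ok`. -/
noncomputable def T2 (G : B → Prop) (T E : ℕ) (P : Finset B) (X : ℝ) (j : ℕ) : ℝ :=
  ∑ b ∈ P.powerset with (S.Fam b ∧ Ok S G T b), ∑ q ∈ b with (S.Wt E b q ∧ S.bl q = j),
    (S.cnt₂ E b q : ℝ) * Real.exp (-(S.nm b / X))

open Classical in
/-- The oscillating sum of the block pair `i, j`. -/
noncomputable def A1 (ψ : AddChar k ℂ) (G : B → Prop) (T E : ℕ) (P : Finset B) (X : ℝ) (i j : ℕ)
    (s : k) : ℂ :=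
  ∑ b ∈ P.powerset with (S.Fam b ∧ Ok S G T b), ∑ q ∈ b with (S.Wt E b q ∧ S.bl q = j),
    ∑ q₁ ∈ b with S.bl q₁ = i, ful S ψ E P b q s (fun c y ↦ Tp S T E b q c y q₁) *
      (Real.exp (-(S.nm b / X)) : ℂ)

open Classical in
/-- The part with zero labels. -/
noncomputable def Z1 (ψ : AddChar k ℂ) (T E : ℕ) (P : Finset B) (X : ℝ) (j : ℕ)
    (s : k) : ℝ :=
  ∑ b ∈ P.powerset, ∑ q ∈ b with (S.Wt E b q ∧ S.bl q = j),
    ‖ful S ψ E P b q s (Zr S T E b q)‖ * Real.exp (-(S.nm b / X))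

open Classical in
/-- One block: from `cnt₂` to `cnt` and the two error terms. -/
theorem step7 (hFUL : R_FUL) (ψ : AddChar k ℂ) (hψ : ψ ≠ 1) (G : B → Prop) (T E J : ℕ)
    (P : Finset B) (X : ℝ) (j : ℕ) (hjE : j ≤ th E j)
    (hP : ∀ q ∈ P, S.bl q < J) :
    T2 S G T E P X j ≤ (1 / Fintype.card k : ℝ) * T1 S E P X j +
      (1 / Fintype.card k : ℝ) * ∑ s : k with s ≠ 0, (Z1 S ψ T E P X j s +
        ∑ i ∈ Ico T J with i ≠ j, ‖A1 S ψ G T E P X i j s‖) := by
  have hcard : (0 : ℝ) ≤ 1 / Fintype.card k := by positivity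
  have h1 : T2 S G T E P X j = (1 / Fintype.card k : ℝ) *
      (∑ b ∈ P.powerset with (S.Fam b ∧ Ok S G T b), ∑ q ∈ b with (S.Wt E b q ∧ S.bl q = j),
        (S.cnt E b q : ℝ) * Real.exp (-(S.nm b / X))) +
      (1 / Fintype.card k : ℝ) * ∑ s : k with s ≠ 0,
        ∑ b ∈ P.powerset with (S.Fam b ∧ Ok S G T b), ∑ q ∈ b with (S.Wt E b q ∧ S.bl q = j),
          (ful S ψ E P b q s fun _ _ ↦ True).re * Real.exp (-(S.nm b / X)) := by
    unfold T2
    rw [Finset.sum_comm (s := univ.filter fun s : k ↦ s ≠ 0), Finset.mul_sum, Finset.mul_sum,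
      ← Finset.sum_add_distrib]
    refine Finset.sum_congr rfl fun b hb ↦ ?_
    rw [mem_filter, mem_powerset] at hb
    rw [Finset.sum_comm (s := univ.filter fun s : k ↦ s ≠ 0), Finset.mul_sum, Finset.mul_sum,
      ← Finset.sum_add_distrib]
    refine Finset.sum_congr rfl fun q hq ↦ ?_
    rw [mem_filter] at hq
    rw [hFUL p B B₀ k U Λ C S ψ hψ E P b q hb.1 hq.1 (by rw [hq.2.2]; exact hjE),
      ← Finset.sum_mul]
    ring
  rw [h1]
  refine add_le_add (mul_le_mul_of_nonneg_left ?_ hcard) (mul_le_mul_of_nonneg_left ?_ hcard)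
  · unfold T1
    refine Finset.sum_le_sum_of_subset_of_nonneg ?_ fun b _ _ ↦ by positivity
    intro b hb
    rw [mem_filter] at hb ⊢
    exact ⟨hb.1, hb.2.1⟩
  · refine Finset.sum_le_sum fun s _ ↦ ?_
    have h2 : ∑ b ∈ P.powerset with (S.Fam b ∧ Ok S G T b),
        ∑ q ∈ b with (S.Wt E b q ∧ S.bl q = j),
          (ful S ψ E P b q s fun _ _ ↦ True).re * Real.exp (-(S.nm b / X)) =
        (∑ b ∈ P.powerset with (S.Fam b ∧ Ok S G T b), ∑ q ∈ b with (S.Wt E b q ∧ S.bl q = j),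
          ful S ψ E P b q s (Zr S T E b q) * (Real.exp (-(S.nm b / X)) : ℂ)).re +
        (∑ i ∈ Ico T J with i ≠ j, A1 S ψ G T E P X i j s).re := by
      rw [← Complex.add_re]
      unfold A1
      rw [Finset.sum_comm (s := (Ico T J).filter fun i ↦ i ≠ j), ← Finset.sum_add_distrib,
        Complex.re_sum]
      refine Finset.sum_congr rfl fun b hb ↦ ?_
      rw [mem_filter, mem_powerset] at hb
      rw [Finset.sum_comm (s := (Ico T J).filter fun i ↦ i ≠ j), ← Finset.sum_add_distrib,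
        Complex.re_sum]
      refine Finset.sum_congr rfl fun q hq ↦ ?_
      rw [mem_filter] at hq
      rw [ful_split S ψ G T E P b q s hb.2.2]
      have h3 : ∑ q₁ ∈ b, ful S ψ E P b q s (fun c y ↦ Tp S T E b q c y q₁) =
          ∑ i ∈ Ico T J with i ≠ j, ∑ q₁ ∈ b with S.bl q₁ = i,
            ful S ψ E P b q s (fun c y ↦ Tp S T E b q c y q₁) := by
        rw [← Finset.sum_filter_add_sum_filter_not b (fun q₁ ↦ T ≤ S.bl q₁ ∧ S.bl q₁ ≠ j)]
        rw [Finset.sum_eq_zero (s := b.filter fun q₁ ↦ ¬ (T ≤ S.bl q₁ ∧ S.bl q₁ ≠ j)), add_zero]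
        · rw [← Finset.sum_fiberwise_of_maps_to
            (s := b.filter fun q₁ ↦ T ≤ S.bl q₁ ∧ S.bl q₁ ≠ j)
            (t := (Ico T J).filter fun i ↦ i ≠ j) (g := S.bl)]
          · refine Finset.sum_congr rfl fun i hi ↦ Finset.sum_congr ?_ fun _ _ ↦ rfl
            rw [mem_filter, mem_Ico] at hi
            ext q₁
            simp only [mem_filter]
            constructor
            · rintro ⟨⟨h1, h2⟩, h3⟩
              exact ⟨h1, h3⟩
            · rintro ⟨h1, h3⟩
              exact ⟨⟨h1, by omega, by omega⟩, h3⟩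
          · intro q₁ hq₁
            rw [mem_filter] at hq₁
            rw [mem_filter, mem_Ico]
            exact ⟨⟨hq₁.2.1, hP q₁ (hb.1 hq₁.1)⟩, hq₁.2.2⟩
        · intro q₁ hq₁
          rw [mem_filter] at hq₁
          refine ful_tp_zero S ψ T E P b q q₁ s ?_
          rw [hq.2.2]
          by_contra hcon
          push Not at hcon
          exact hq₁.2 hcon
      rw [h3]
      have h4 : ∀ (z : ℂ) (r : ℝ), z.re * r = (z * (r : ℂ)).re := by
        intro z r
        rw [Complex.mul_re, Complex.ofReal_re, Complex.ofReal_im, mul_zero, sub_zero]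
      rw [h4, add_mul, Finset.sum_mul]
      congr 1
      congr 1
      refine Finset.sum_congr rfl fun i _ ↦ ?_
      rw [Finset.sum_mul]
    rw [h2]
    refine add_le_add ?_ ?_
    · refine (Complex.re_le_norm _).trans ((norm_sum_le _ _).trans ?_)
      unfold Z1
      refine (Finset.sum_le_sum fun b _ ↦ norm_sum_le _ _).trans ?_
      have h5 : ∀ b : Finset B, ∀ q : B, ‖ful S ψ E P b q s (Zr S T E b q) *
          (Real.exp (-(S.nm b / X)) : ℂ)‖ =
          ‖ful S ψ E P b q s (Zr S T E b q)‖ * Real.exp (-(S.nm b / X)) := by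
        intro b q
        rw [norm_mul, Complex.norm_real, Real.norm_of_nonneg (Real.exp_pos _).le]
      simp only [h5]
      exact Finset.sum_le_sum_of_subset_of_nonneg (Finset.filter_subset _ _)
        fun b _ _ ↦ by positivity
    · exact (Complex.re_le_norm _).trans (norm_sum_le _ _)

end

end Pool.Agent.Helper17.PP2
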